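import Mathlib
import Pool.Agent.W528.ZC.FinDefs
import Pool.Agent.W528.ZC.FinDefs2
import Pool.Agent.W528.ZC.Eqs

/-!
# Common `ℚ`-form of the `ℓ`-adic monodromy groups: odd toric rank

Let `A` be an abelian variety over a number field `F`, `V = H_1(A(ℂ), ℚ)` with a basis indexed by
`ι`, `ψ` the matrix of a Riemann form, `E` the set of the matrices of the endomorphisms of `A` over
the algebraic closure of `F`, `Γ` the absolute Galois group of `F`, `ρ ℓ` its representation on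
`V_ℓ = V ⊗ ℚ_ℓ` and `χ ℓ` the cyclotomic character.  The structure `Known` collects the known
properties of `ρ ℓ` (Weil pairing, Faltings, Hodge-Tate, Pink), and `GoodAt` adds the condition
on the toric ranks.

The *strongly irreducible* subspaces `U` (predicate `SI`) of `ℚ_ℓ^alg ⊗ V_ℓ` are the minimal nonzero
subspaces that are stable under a subgroup of finite index of `Γ`.  If `End(A) = ℤ` there is just
one, the whole space; if `End(A) ⊗ ℚ` is a totally real field, there is one for each of its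
embeddings.  All of them are self-dual with an alternating pairing exactly if all simple factors of
`A` are of type I or II in Albert's classification.

Theorem: suppose that for all primes `ℓ ≥ ℓ₀` every strongly irreducible `U` is self-dual with an
alternating pairing, and there is an element `γ` of `Γ` with `(γ - 1) ^ 2 = 0` whose rank on `U` is
odd or two (for `End(A) = ℤ`: a place of semistable reduction whose toric rank is odd or two).
Then there is an algebraic group `G ⊆ GSp(V, ψ)` over `ℚ`, given by a set `S` of polynomials over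
`ℚ`, namely the Lefschetz group (the similitudes of `ψ` that commute with `E`), such that
`G_{ℚ_ℓ}` is the identity component of the Zariski closure of `ρ ℓ (Γ')` for all primes `ℓ ≥ ℓ₀` and
all subgroups `Γ'` of finite index (all finite extensions of `F`).
-/

namespace Pool.Agent.Results.MP_e965d0_ag.LefschetzForm

open Pool.Agent.W528.ZC

theorem result {ι : Type} [Fintype ι] [DecidableEq ι] (ψ : Matrix ι ι ℚ)
    (_halt : ψ.transpose = -ψ) (hψ : IsUnit ψ.det) (E : Set (Matrix ι ι ℚ))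
    {Γ : Type} [Group Γ] (ρ : ∀ (ℓ : ℕ) [Fact ℓ.Prime], Γ →* Matrix ι ι ℚ_[ℓ])
    (χ : ∀ (ℓ : ℕ) [Fact ℓ.Prime], Γ →* ℚ_[ℓ]) (ℓ₀ : ℕ)
    (hgood : ∀ (ℓ : ℕ) [Fact ℓ.Prime], ℓ₀ ≤ ℓ → GoodAt ψ E ℓ (ρ ℓ) (χ ℓ)) :
    ∃ S : Set (MvPolynomial (ι × ι) ℚ),
      (∀ (L : Type) [Field L] [Algebra ℚ L] (g : Matrix ι ι L), IsUnit g.det →
        (IsZeroOf S g ↔ InLefschetz ψ E g)) ∧
      ∀ (ℓ : ℕ) [Fact ℓ.Prime], ℓ₀ ≤ ℓ → ∀ Γ' : Subgroup Γ, Γ'.FiniteIndex →
        ∀ g : Matrix ι ι (AlgebraicClosure ℚ_[ℓ]), IsUnit g.det →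
          (InIdentityComponent ((ρ ℓ).comp Γ'.subtype) g ↔ IsZeroOf S g) := by
  refine ⟨lef ψ E, fun L _ _ g hg => lef_iff hψ L g hg, fun ℓ _ hℓ Γ' hΓ' g hg => ?_⟩
  have hψ' : IsUnit (mapQ ℚ_[ℓ] ψ).det := by
    have h1 := (algebraMap ℚ ℚ_[ℓ]).map_det ψ
    rw [RingHom.mapMatrix_apply] at h1
    unfold mapQ
    rw [← h1]
    exact hψ.map _
  have hmap : ∀ M : Matrix ι ι ℚ, (mapQ ℚ_[ℓ] M).map
      (algebraMap ℚ_[ℓ] (AlgebraicClosure ℚ_[ℓ])) =
      M.map (algebraMap ℚ (AlgebraicClosure ℚ_[ℓ])) := by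
    intro M
    ext i j
    simp only [mapQ, Matrix.map_apply]
    exact (IsScalarTower.algebraMap_apply ℚ ℚ_[ℓ] (AlgebraicClosure ℚ_[ℓ]) _).symm
  unfold IsZeroOf
  rw [inIC_sub (ρ ℓ) Γ' hΓ' g, main_M hψ' (hgood ℓ hℓ).1 (hgood ℓ hℓ).2 g hg,
    lef_iff hψ (AlgebraicClosure ℚ_[ℓ]) g hg, hmap]
  refine and_congr Iff.rfl ⟨fun h e he => ?_, ?_⟩
  · have h1 := h _ ⟨e, he, rfl⟩
    rwa [hmap] at h1
  · rintro h _ ⟨e, he, rfl⟩
    rw [hmap]
    exact h e he

end Pool.Agent.Results.MP_e965d0_ag.LefschetzForm
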